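import Pool.Agent.H77.FLD.Dd

/-!
# H77-FLD-ESC: enlarging S0 (as ESa)
-/

set_option autoImplicit false

open scoped NumberField
open IsDedekindDomain H38.ML
open scoped Classical

noncomputable section

namespace H77.FLD

open H63.MA H38.BB H38.BG H57.PC H57.BRA H63.BU H77.PC3 H57.CC H38.AS H77.S0T

variable {K : Type} [Field K] [NumberField K] {Ω : Type} [Field Ω] [Algebra K Ω]
  [IsAlgClosure K Ω] {p N : ℕ} {ζ : K} {G : Type} [Group G]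

omit [IsAlgClosure K Ω] in
private theorem esa_in {D : RD0 K p ζ} (L : LDs D Ω) (v : Pl K) (hv : v ∉ D.S0) :
    inr L v = (L.ld v hv).P.inertia Gal(Ω/K) := by
  unfold inr
  rw [dif_pos hv]

omit [IsAlgClosure K Ω] in
private theorem esa_t {D : RD0 K p ζ} (L : LDs D Ω) (v : Pl K) (hv : v ∉ D.S0) :
    L.t v = (L.ld v hv).t := by
  unfold LDs.t
  rw [dif_pos hv]

omit [IsAlgClosure K Ω] in
private theorem esa_tin {D : RD0 K p ζ} (L : LDs D Ω) (v : Pl K) (hv : v ∉ D.S0) :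
    L.t v ∈ inr L v := by
  rw [esa_in L v hv, esa_t L v hv]
  exact (L.ld v hv).ht

theorem esc_ty [Finite G] (hp : p.Prime) (hζ : IsPrimitiveRoot ζ p) {D D' : RD0 K p ζ}
    (hDD : ∀ v ∈ D.S0, v ∈ D'.S0) (L : LDs D Ω) (L' : LDs D' Ω)
    (Q : DP K Ω) (hL : LQ L Q) (hL' : LQ L' Q) (c : CL p N G) (φ : Gal(Ω/K) →* G)
    (hφ : H38.ML.FT φ) (v : Pl K) (hv : v ∉ D'.S0) :
    (Rm L φ v ↔ Rm L' φ v) ∧ ∀ i, TyC c L φ i v ↔ TyC c L' φ i v := by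
  have h1 : v ∉ D.S0 := fun h => hv (hDD v h)
  have hin := esa_inr hDD L L' Q hL hL' v hv
  have key : (∀ τ ∈ inr L v, φ τ ^ p = 1) → φ (L'.t v) = φ (L.t v) := by
    intro he
    have ht : L'.t v ∈ inr L v := by
      rw [hin]
      exact esa_tin L' v hv
    have h2 := tm_z hp hζ L φ hφ v h1 he (L'.t v) ht
    have h3 : kk p ζ (D.pi v) (L'.t v) = ((ord v (D.pi v) : ℤ) : ZMod p) := by
      rw [esa_t L' v hv]
      exact ld_kk_t hp hζ (fun h => hv (D'.above v h)) (D'.pi_self v hv) (L'.ld v hv) (D.pi v)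
    haveI : Fact (1 < p) := ⟨hp.one_lt⟩
    rw [D.pi_self v h1, Int.cast_one] at h3
    rw [h3, ZMod.val_one, pow_one] at h2
    exact h2
  refine ⟨?_, fun i => ?_⟩
  · unfold Rm
    rw [hin]
    exact ⟨fun h => ⟨hv, h.2⟩, fun h => ⟨h1, h.2⟩⟩
  · unfold TyC
    constructor
    · rintro ⟨hg, hc, he⟩
      refine ⟨⟨hv, hg.2⟩, ?_, ?_⟩
      · rw [key he]
        exact hc
      · rw [← hin]
        exact he
    · rintro ⟨hg, hc, he⟩
      rw [← hin] at he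
      refine ⟨⟨h1, hg.2⟩, ?_, he⟩
      rw [← key he]
      exact hc

theorem esc_teq {D : RD0 K p ζ} (L : LDs D Ω) (Q : DP K Ω) (hL : LQ L Q)
    (c : CL p N G) (S : Finset (Pl K)) (φ φ' : Gal(Ω/K) →* G) (h : Teq S Q φ φ')
    (v : Pl K) (hv : v ∈ S) : NeC c L φ v ↔ NeC c L φ' v := by
  have h1 : ∀ ψ ψ' : Gal(Ω/K) →* G, (∀ σ ∈ dec (K := K) (Q.P v), ψ σ = ψ' σ) →
      NeC c L ψ v → NeC c L ψ' v := by
    rintro ψ ψ' hs ⟨⟨hv0, τ, hτ, hne⟩, hty⟩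
    obtain ⟨hd1, hd2⟩ := esa_dec L Q hL v
    refine ⟨⟨hv0, τ, hτ, ?_⟩, ?_⟩
    · rw [← hs τ (hd1 hτ)]
      exact hne
    · rintro i ⟨hg, hc, he⟩
      refine hty i ⟨hg, ?_, fun σ hσ => ?_⟩
      · rw [hs _ (hd2 hv0)]
        exact hc
      · rw [hs σ (hd1 hσ)]
        exact he σ hσ
  exact ⟨h1 φ φ' (h v hv), h1 φ' φ (fun σ hσ => (h v hv σ hσ).symm)⟩

theorem esc_iff [Finite G] (hp : p.Prime) (hζ : IsPrimitiveRoot ζ p) {D D' : RD0 K p ζ}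
    (hDD : ∀ v ∈ D.S0, v ∈ D'.S0) (L : LDs D Ω) (L' : LDs D' Ω)
    (Q : DP K Ω) (hL : LQ L Q) (hL' : LQ L' Q) (c : CL p N G) (φ : Gal(Ω/K) →* G)
    (hφ : H38.ML.FT φ) (E : Finset (Pl K)) (hE : ∀ v ∈ E, v ∈ D'.S0) :
    (∀ v, v ∈ E ↔ NeC c L φ v) ↔ (∀ v, Rm L' φ v → ∃ i, TyC c L' φ i v) ∧
      ∀ v ∈ D'.S0, (v ∈ E ↔ NeC c L φ v) := by
  constructor
  · intro h
    refine ⟨fun v hR => ?_, fun v _ => h v⟩
    have hv : v ∉ D'.S0 := hR.1
    obtain ⟨h1, h2⟩ := esc_ty hp hζ hDD L L' Q hL hL' c φ hφ v hv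
    by_contra hcon
    push Not at hcon
    apply hv
    apply hE
    rw [h v]
    exact ⟨h1.2 hR, fun i hi => hcon i ((h2 i).1 hi)⟩
  · rintro ⟨ha, hb⟩ v
    by_cases hv : v ∈ D'.S0
    · exact hb v hv
    · obtain ⟨h1, h2⟩ := esc_ty hp hζ hDD L L' Q hL hL' c φ hφ v hv
      constructor
      · intro hE'
        exact absurd (hE v hE') hv
      · rintro ⟨hR, hT⟩
        obtain ⟨i, hi⟩ := ha v (h1.1 hR)
        exact absurd ((h2 i).2 hi) (hT i)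

/-- the exponent at typed primes -/
theorem esc_exp {n : ℕ} (G : Subgroup (Equiv.Perm (Fin n))) {p : ℕ} (hp : p.Prime)
    {K : Type} [Field K] [NumberField K] {Ω : Type} [Field Ω] [Algebra K Ω]
    [IsAlgClosure K Ω] {ζ : K} (hζ : IsPrimitiveRoot ζ p)
    {N : ℕ} (c : CL p N G)
    (hI : ∀ (h : G) (i : Fin N), IsConj h (c.g i) → ind (h : Equiv.Perm (Fin n)) = indG G)
    {D : RD0 K p ζ} (L : LDs D Ω) (φ : Gal(Ω/K) →* G) (hft : H38.ML.FT φ) (v : Pl K)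
    (i : Fin N) (h : TyC c L φ i v) :
    n - orbs (((inr L v).map φ).map G.subtype) = indG G := by
  obtain ⟨hgd, hc, he⟩ := h
  have hv : v ∉ D.S0 := hgd.1
  have htm : L.t v ∈ inr L v := esa_tin L v hv
  have h1 : (inr L v).map φ = Subgroup.zpowers (φ (L.t v)) := by
    apply le_antisymm
    · rintro _ ⟨τ, hτ, rfl⟩
      rw [tm_z hp hζ L φ hft v hv he τ hτ]
      exact Subgroup.npow_mem_zpowers _ _
    · rw [Subgroup.zpowers_le]
      exact ⟨L.t v, htm, rfl⟩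
  have h2 : ((Subgroup.zpowers (φ (L.t v))).map G.subtype) =
      Subgroup.zpowers ((φ (L.t v) : G) : Equiv.Perm (Fin n)) := by
    rw [MonoidHom.map_zpowers]
    rfl
  rw [h1, h2]
  exact hI _ i hc

end H77.FLD
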