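import Pool.Agent.H38.AS.Fin
import Pool.Agent.H77.PC3.CMa

/-!
# [H77 FLD AMN] all elements of order `p` are of least index (MP_b39724_nt (C), fields; pure group theory)

`G ≤ S_n` transitive and nilpotent, `S` the Sylow `p`-subgroup, generated by the elements of least index. Then every element of order `p` is of least index.
Proof. (1) Some element `g₀ ≠ 1` of least index has no fixed point: otherwise every element of least index (it is in `S`) lies in the stabiliser `S_y` of some point `y`. Fix a point `x`. All `S_y` are conjugate under `S` to `S_x`: `y = g x`, `S_y = g S_x g⁻¹`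
(`S` normal: `nil_normal`), and `G = S C_G(S)` as `G` is nilpotent (Sylow subgroups of different primes commute; alternatively: let `M ≥ S_x` be a maximal subgroup of `S` if `S_x ≠ S`; `M` contains the commutators of `S`, and all least index elements of `S_y`... use the next line).
Simplest: let `F : S → S/Φ` be the projection to the maximal elementary abelian quotient (or: abelianisation of `S` modulo `p`-th powers). `G` acts on `S/Φ` by conjugation; a p'-element of the nilpotent group `G` commutes with `S`, an element of `S` acts trivially on `S/Φ`; so `G` acts trivially and the images of all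
the `S_y` in `S/Φ` are equal. They contain the image of the generators, so `F(S_x)` is everything, so `S_x = S` (Frattini: `frattini_nongenerating` or for p-groups `IsPGroup`: a proper subgroup lies in a normal subgroup of index `p`, which contains all commutators and `p`-th powers), so `S` fixes `x`, and as `S` is normal and `G` transitive `S`
fixes every point, `S = 1`, but an element of least index exists (`pidx_pos`) and is `≠ 1` and in `S`.
(2) `g₀` has order `p` (`hI`) and no fixed point, so all orbits of `zpowers g₀` have `p` elements: `p * orbs (zpowers g₀) = n` (copy the second half of the proof of `fin_cen`). For `h ≠ 1`, `h ^ p = 1`: `n ≤ p * orbs (zpowers h)` (`fin_orbs`), so `ind h ≤ ind g₀ = indG G`, and `indG G ≤ ind h` (`pidx_pos`). See `fin_hcen`.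
-/

set_option autoImplicit false

open H38.ML
open scoped Classical

noncomputable section

namespace H77.FLD

open H38.BG H38.AS H77.PC3

/-- an element of order `p` without fixed points has orbits of length `p` -/
private theorem orb_free {n : ℕ} {p : ℕ} (hp : p.Prime) (g : Equiv.Perm (Fin n)) (hg : g ≠ 1)
    (hgp : g ^ p = 1) (hf : ∀ x, g x ≠ x) :
    p * orbs (Subgroup.zpowers g) = n := by
  unfold orbs
  set H : Subgroup (Equiv.Perm (Fin n)) := Subgroup.zpowers g with hH
  have hord : orderOf g = p := orderOf_eq_prime hgp hg (hp := ⟨hp⟩)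
  have hcard : Nat.card H = p := by
    rw [hH, Nat.card_zpowers, hord]
  -- the action of `H` is free
  have hfree : ∀ (s : H) (x : Fin n), s • x = x → s = 1 := by
    intro s x hx
    by_contra hs
    have h0 : Fact p.Prime := ⟨hp⟩
    have h1 : (⟨g, Subgroup.mem_zpowers g⟩ : H) ∈ Subgroup.zpowers s :=
      mem_zpowers_of_prime_card hcard hs
    obtain ⟨k, hk⟩ := Subgroup.mem_zpowers_iff.1 h1
    have h2 : s ∈ MulAction.stabilizer H x := hx
    have h3 : s ^ k ∈ MulAction.stabilizer H x := Subgroup.zpow_mem _ h2 k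
    rw [hk] at h3
    exact hf x h3
  have h1 : ∀ q : MulAction.orbitRel.Quotient H (Fin n),
      Nat.card {x : Fin n // (Quotient.mk'' x : MulAction.orbitRel.Quotient H (Fin n)) = q} =
        p := by
    intro q
    induction q using Quotient.inductionOn' with
    | h x =>
      rw [← hcard]
      symm
      refine Nat.card_eq_of_bijective
        (fun s : H => (⟨s • x, by
          rw [Quotient.eq'']
          exact ⟨s, rfl⟩⟩ : {y : Fin n // (Quotient.mk'' y :
            MulAction.orbitRel.Quotient H (Fin n)) = Quotient.mk'' x})) ⟨?_, ?_⟩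
      · intro s s' h
        have h2 : s • x = s' • x := congrArg Subtype.val h
        have h3 : (s'⁻¹ * s) • x = x := by rw [mul_smul, h2, inv_smul_smul]
        exact (inv_mul_eq_one.1 (hfree _ x h3)).symm
      · rintro ⟨y, hy⟩
        rw [Quotient.eq''] at hy
        obtain ⟨s, hs⟩ := hy
        exact ⟨s, Subtype.ext hs⟩
  have h3 : Nat.card (Fin n) = ∑ q : MulAction.orbitRel.Quotient H (Fin n),
      Nat.card {x : Fin n // (Quotient.mk'' x :
        MulAction.orbitRel.Quotient H (Fin n)) = q} := by
    rw [← Nat.card_sigma]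
    exact Nat.card_congr (Equiv.sigmaFiberEquiv _).symm
  rw [Nat.card_fin, Finset.sum_congr rfl fun q _ => h1 q, Finset.sum_const, Finset.card_univ,
    smul_eq_mul, mul_comm, ← Nat.card_eq_fintype_card] at h3
  exact h3.symm

/-- some element of least index has no fixed point -/
private theorem ex_free {n : ℕ} (G : Subgroup (Equiv.Perm (Fin n)))
    (hG : MulAction.IsPretransitive G (Fin n)) (hnil : Group.IsNilpotent G) {p : ℕ}
    (hp : p.Prime) (hpd : p ∣ Nat.card G) (S : Sylow p G) (Λ : Set G)
    (hS : Subgroup.closure Λ = (S : Subgroup G)) (hne : ∃ g ∈ Λ, g ≠ 1) :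
    ∃ g ∈ Λ, ∀ x : Fin n, g • x ≠ x := by
  by_contra hcon
  push Not at hcon
  have hpf : Fact p.Prime := ⟨hp⟩
  have hSn := H77.UX.nil_normal hnil hp S
  obtain ⟨f, hf, -⟩ := H77.UX.nil_split hnil hp hpd S
  have hconj : ∀ (g : G) (s : S), (f g * s * (f g)⁻¹ : S) = (g * s * g⁻¹ : G) := by
    intro g s
    have h1 : g * (s : G) * g⁻¹ ∈ (S : Subgroup G) := hSn.conj_mem _ s.2 g
    have h2 := hf ⟨_, h1⟩
    have h3 : f (g * (s : G) * g⁻¹) = f g * s * (f g)⁻¹ := by
      rw [map_mul, map_mul, map_inv, hf s]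
    rw [← h3]
    exact congrArg Subtype.val h2
  have hΛS : ∀ g ∈ Λ, g ∈ (S : Subgroup G) := fun g hg => by
    rw [← hS]
    exact Subgroup.subset_closure hg
  -- every point stabiliser in `S` is everything
  have hall : ∀ x : Fin n, MulAction.stabilizer S x = ⊤ := by
    intro x
    by_contra hx
    rcases eq_top_or_exists_le_coatom (MulAction.stabilizer S x) with h | ⟨M, hM, hxM⟩
    · exact hx h
    · have hnilS : Group.IsNilpotent S := IsPGroup.isNilpotent S.isPGroup'
      have hMn : M.Normal :=
        Subgroup.NormalizerCondition.normal_of_coatom M Group.normalizerCondition_of_isNilpotent hM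
      apply hM.1
      have h1 : ∀ g (hg : g ∈ Λ), (⟨g, hΛS g hg⟩ : S) ∈ M := by
        intro g hg
        obtain ⟨y, hy⟩ := hcon g hg
        obtain ⟨k, hk⟩ := hG.exists_smul_eq x y
        have h2 : (f k⁻¹ * ⟨g, hΛS g hg⟩ * (f k⁻¹)⁻¹ : S) ∈ MulAction.stabilizer S x := by
          rw [MulAction.mem_stabilizer_iff, Subgroup.smul_def, hconj k⁻¹ ⟨g, hΛS g hg⟩]
          change (k⁻¹ * g * k⁻¹⁻¹) • x = x
          rw [inv_inv, mul_smul, mul_smul, hk, hy, ← hk, inv_smul_smul]
        have h3 := hMn.conj_mem _ (hxM h2) (f k⁻¹)⁻¹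
        have h4 : (f k⁻¹)⁻¹ * (f k⁻¹ * ⟨g, hΛS g hg⟩ * (f k⁻¹)⁻¹) * (f k⁻¹)⁻¹⁻¹ =
            (⟨g, hΛS g hg⟩ : S) := by group
        rw [h4] at h3
        exact h3
      have h5 : (S : Subgroup G) ≤ M.map (S : Subgroup G).subtype := by
        refine hS.symm.le.trans ?_
        rw [Subgroup.closure_le]
        intro g hg
        exact ⟨⟨g, hΛS g hg⟩, h1 g hg, rfl⟩
      rw [eq_top_iff]
      intro s _
      obtain ⟨t, ht, hts⟩ := h5 s.2
      have : t = s := Subtype.ext hts
      rw [← this]
      exact ht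
  obtain ⟨g₀, hg₀, hg₁⟩ := hne
  apply hg₁
  apply Subtype.ext
  ext x
  have h1 : (⟨g₀, hΛS g₀ hg₀⟩ : S) ∈ MulAction.stabilizer S x := by
    rw [hall x]
    exact Subgroup.mem_top _
  have h2 : (g₀ : Equiv.Perm (Fin n)) x = x := h1
  rw [h2]
  rfl

theorem all_min {n : ℕ} (hn : 2 ≤ n) (G : Subgroup (Equiv.Perm (Fin n)))
    (hG : MulAction.IsPretransitive G (Fin n)) (hnil : Group.IsNilpotent G) {p : ℕ}
    (hp : p.Prime)
    (hI : ∀ h : G, h ≠ 1 → ind (h : Equiv.Perm (Fin n)) = indG G → h ^ p = 1)
    (S : Sylow p G)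
    (hS : Subgroup.closure {h : G | h ≠ 1 ∧ ind (h : Equiv.Perm (Fin n)) = indG G} =
      (S : Subgroup G)) :
    ∀ h : G, h ≠ 1 → h ^ p = 1 → ind (h : Equiv.Perm (Fin n)) = indG G := by
  obtain ⟨-, ⟨g₁, hg₁, hg₁'⟩, hmin, -, -⟩ := pidx_pos hn G hG
  have hpd : p ∣ Nat.card G := by
    have h2 := hI g₁ hg₁ hg₁'
    have h3 : orderOf g₁ = p := orderOf_eq_prime h2 hg₁ (hp := ⟨hp⟩)
    rw [← h3]
    exact orderOf_dvd_natCard g₁
  obtain ⟨g₀, ⟨hg₀, hg₀'⟩, hfr⟩ := ex_free G hG hnil hp hpd S _ hS ⟨g₁, ⟨hg₁, hg₁'⟩, hg₁⟩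
  have hgp := hI g₀ hg₀ hg₀'
  have h0 := orb_free hp (g₀ : Equiv.Perm (Fin n))
    (fun h => hg₀ (Subtype.ext h))
    (by rw [← Subgroup.coe_pow, hgp, Subgroup.coe_one]) hfr
  intro h hh hhp
  refine le_antisymm ?_ (hmin h hh)
  have h1 := fin_orbs hp (h : Equiv.Perm (Fin n)) (by
    rw [← Subgroup.coe_pow, hhp, Subgroup.coe_one])
  rw [← hg₀']
  unfold ind
  have h2 : orbs (Subgroup.zpowers (g₀ : Equiv.Perm (Fin n))) ≤
      orbs (Subgroup.zpowers (h : Equiv.Perm (Fin n))) := by
    refine Nat.le_of_mul_le_mul_left ?_ hp.pos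
    rw [h0]
    exact h1
  omega

end H77.FLD
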