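import Pool.Agent.H77.S0T.Lh
import Pool.Agent.H38.AS.ESa

/-!
# H77-FLD-DD: definitions for the number of fields (MP_b39724_nt, asymptotic formula for class 3), complete

* `NeC c L φ v`: `v` is a ramified prime outside `S0` which is of no type.
* `SYG L Q c φ₁ Y`: the surjective homomorphisms to `G` equal to `φ₁` at `S0`, typed outside `S0`, with the primes of norm product at most `Y`
  (for `G = P`, `c = clP Dg` this is `SY3`).
* `NE3 G K L c i₀ E B`: the surjective `φ : Γ → G` of finite type with discriminant `≤ B` whose set of untyped primes is `E`.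
-/

set_option autoImplicit false

open scoped NumberField
open IsDedekindDomain H38.ML
open scoped Classical

noncomputable section

namespace H77.FLD

open H63.MA H38.BB H38.BG H57.PC H57.BRA H63.BU H77.PC3 H57.CC H38.AS H77.S0T

section gen

variable {K : Type} [Field K] [NumberField K] {Ω : Type} [Field Ω] [Algebra K Ω]
  {p N : ℕ} {ζ : K} {G : Type} [Group G]

/-- ramified outside `S0` and of no type -/
def NeC (c : CL p N G) {D : RD0 K p ζ} (L : LDs D Ω) (φ : Gal(Ω/K) →* G) (v : Pl K) :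
    Prop := Rm L φ v ∧ ∀ i, ¬ TyC c L φ i v

/-- the surjective homomorphisms to `G` equal to `φ₁` at `S0`, typed outside `S0`, with the primes of norm product at most `Y` -/
def SYG {D : RD0 K p ζ} (L : LDs D Ω) (Q : DP K Ω) (c : CL p N G) (φ₁ : Gal(Ω/K) →* G)
    (Y : ℝ) : Set (Gal(Ω/K) →* G) :=
  {φ | H38.ML.FT φ ∧ Function.Surjective φ ∧ Teq D.S0 Q φ φ₁ ∧
    (∀ v, v ∉ D.S0 → (∀ τ ∈ inr L v, φ τ = 1) ∨ ∃ i, TyC c L φ i v) ∧
    ∀ T : Finset (Pl K), (∀ v ∈ T, v ∉ D.S0 ∧ ¬ ∀ τ ∈ inr L v, φ τ = 1) →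
      ∏ v ∈ T, (nm v : ℝ) ≤ Y}

theorem syg_p {m l w : ℕ} {P R : Type} [Group P] [Group R] [NeZero p] {D : RD0 K p ζ}
    (L : LDs D Ω) (Q : DP K Ω) (Dg : GP p m l w N P R) (φ₁ : Gal(Ω/K) →* P) (Y : ℝ) :
    SYG L Q (clP Dg) φ₁ Y = SY3 L Q Dg φ₁ Y := rfl

end gen

/-- the homomorphisms with given set of untyped primes -/
def NE3 {n p N : ℕ} (G : Subgroup (Equiv.Perm (Fin n))) (K : IntermediateField ℚ QBar)
    [NumberField K] {ζ : K} {D : RD0 K p ζ} (L : LDs D QBar) (c : CL p N G)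
    (i₀ : Fin n) (E : Finset (Pl K)) (B : ℝ) : Set (Gal(QBar/K) →* G) :=
  {φ | FT φ ∧ Function.Surjective φ ∧ (H38.ML.relDisc K (fieldOf i₀ φ) : ℝ) ≤ B ∧
    ∀ v, v ∈ E ↔ NeC c L φ v}

end H77.FLD
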