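import Pool.Agent.H77.PC3.CGu
import Pool.Agent.H38.AS.GUe

/-!
# [H77 FLD GUE] domination: summable bounds for the number of homomorphisms with given untyped primes (MP_b39724_nt (C), fields)

Exactly as `gue` (H38/AS/GUe.lean), with the changes made in `cgu` (H77/PC3/CGu.lean) compared with `gup`: there is a summable family `wt E ≥ 0` such that for `B ≥ 3`, every `E` and every finite set `Rs` of surjective `φ` with bounded
ramification whose set of ramified untyped primes outside `S0` is `E`: `#Rs ≤ wt E * (B^{1/a} (log B)^{N-1})`.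
Proof. Copy the proof of `cgu` (`csu`, `cku`, `ccnt_nr`, `hFS`, `usum`); the set `E` is given, only `b` has to be chosen; `wt E = C₁ (#U)^m C₂ 2^{N-1} * (q^{#E} (nr E)^η ∏_{v ∈ E} nm v^(-co a v / a))`; summable by `summable_of_sum_le` and `usum` as in `gue`.
-/

set_option autoImplicit false

open scoped NumberField
open IsDedekindDomain
open scoped Classical

noncomputable section

namespace H77.FLD

open H63.MA H38.BB H38.BG H57.PC H63.BU H77.AB H77.PC3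

theorem gue3 {K : Type} [Field K] [NumberField K] {Ω : Type} [Field Ω] [Algebra K Ω]
    [IsAlgClosure K Ω] {p : ℕ} [NeZero p] {ζ : K} {m l w N : ℕ} {G P H R : Type}
    [Group G] [Finite G] [Group P] [Group H] [Group R] (hp : p.Prime)
    (hζ : IsPrimitiveRoot ζ p) (D : RD0 K p ζ) (L : LDs D Ω)
    (hnil : Group.IsNilpotent G) (Q : GQ p m l w N G P H R) (Fr : FR L)
    (hFS : FBd Q.Dg Fr) (z : K) (hz : IsPrimitiveRoot z (Nat.card G))
    (hS : ∀ v : Pl K, ((Nat.card G : ℕ) : 𝓞 K) ∈ v.asIdeal → v ∈ D.S0) (a : ℕ) (ha : 0 < a)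
    (ix : Subgroup G → ℕ) (h1 : ∀ H, H ≠ ⊥ → a ≤ ix H)
    (h2 : ∀ g : G, g ≠ 1 → ix (Subgroup.zpowers g) ≤ a → ∃ i, IsConj g (Q.cl.g i)) :
    ∃ wt : Finset (Pl K) → ℝ, Summable wt ∧ (∀ E, 0 ≤ wt E) ∧
      ∀ (B : ℝ) (E : Finset (Pl K)), 3 ≤ B → ∀ Rs : Finset (Gal(Ω/K) →* G),
      (∀ φ ∈ Rs, H38.ML.FT φ ∧ Function.Surjective φ ∧ (∀ T : Finset (Pl K),
        (∀ v ∈ T, v ∉ D.S0) → ∏ v ∈ T, (nm v : ℝ) ^ ix ((inr L v).map φ) ≤ B) ∧
        ∀ v, v ∈ E ↔ Rm L φ v ∧ ∀ i, ¬ TyC Q.cl L φ i v) →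
      (Rs.card : ℝ) ≤ wt E * (B ^ (1 / (a : ℝ)) * Real.log B ^ (N - 1)) := by
  have haR : (0 : ℝ) < (a : ℝ) := by exact_mod_cast ha
  have ha1 : (1 : ℝ) ≤ (a : ℝ) := by exact_mod_cast ha
  obtain ⟨U, hU1, hU2⟩ := unit_reps hp D.S0
  have hU : UR D U := ⟨hU1, hU2⟩
  obtain ⟨C₁, hcnt⟩ := csu hp hζ D L hnil Q Fr z hz hS a ha ix h1 h2
  obtain ⟨η, hη⟩ : ∃ η : ℝ, η = 1 / (4 * (a : ℝ)) := ⟨_, rfl⟩
  have hη0 : 0 < η := by
    rw [hη]
    positivity
  obtain ⟨C₂, hC₂, hub⟩ := hFS η hη0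
  obtain ⟨q, hq⟩ : ∃ q : ℝ, q = (Nat.card G : ℝ) * (p : ℝ) ^ m := ⟨_, rfl⟩
  have hq0 : 0 ≤ q := by
    rw [hq]
    positivity
  obtain ⟨C₃, hC₃, hsum⟩ := usum K a ha q hq0
  rw [← hη] at hsum
  have hbase0 : ∀ E : Finset (Pl K), 0 ≤ q ^ E.card * nr E ^ η *
      ∏ v ∈ E, (nm v : ℝ) ^ (-((co a v : ℝ) / (a : ℝ))) := by
    intro E
    have hnr := one_le_nr E
    have : 0 ≤ ∏ v ∈ E, (nm v : ℝ) ^ (-((co a v : ℝ) / (a : ℝ))) :=
      Finset.prod_nonneg fun v _ => Real.rpow_nonneg (Nat.cast_nonneg _) _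
    positivity
  refine ⟨fun E => ((C₁ : ℝ) * (U.card : ℝ) ^ m * C₂ * 2 ^ (N - 1)) *
    (q ^ E.card * nr E ^ η * ∏ v ∈ E, (nm v : ℝ) ^ (-((co a v : ℝ) / (a : ℝ)))),
    Summable.mul_left _ (summable_of_sum_le hbase0 hsum),
    fun E => mul_nonneg (by positivity) (hbase0 E), ?_⟩
  intro B E hB Rs hRs
  have hB1 : 1 ≤ B := by linarith
  have hB0 : 0 < B := by linarith
  have hlog1 : 1 ≤ Real.log B := by
    rw [Real.le_log_iff_exp_le hB0]
    exact Real.exp_one_lt_three.le.trans hB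
  obtain ⟨X, hX⟩ : ∃ X : ℝ, X = B ^ (1 / (a : ℝ)) := ⟨_, rfl⟩
  have hX1 : 1 ≤ X := by
    rw [hX]
    exact Real.one_le_rpow hB1 (by positivity)
  have hX0 : 0 < X := by linarith
  -- the data
  have hex : ∀ φ : Gal(Ω/K) →* G, ∃ (e : Fin m → Kˣ),
      φ ∈ Rs →
      e ∈ Bb D U E m ∧
      BS2 D e E ∧
      1 ≤ UY B a E ∧
      ∀ f : Fin N → Finset (Pl K), (∀ i v, v ∈ f i ↔ TyC Q.cl L φ i v) →
          (∀ (σ : Gal(Ω/K)) k, kk p ζ (akR D Q.Dg.cr e f k) σ =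
            Multiplicative.toAdd (Q.Dg.π (Q.Dg.q (Q.pr (φ σ)))) k) ∧
          SpR Q.Dg.cr e f := by
    intro φ
    by_cases hφ : φ ∈ Rs
    · obtain ⟨hft, hs, hT, hE⟩ := hRs φ hφ
      obtain ⟨f, -, hf, -⟩ := csets L Q.cl φ hft
      obtain ⟨b, hb, hbs, hk, hsp⟩ := cku hp hζ D L Q U hU φ hft hs f E hf hE
      obtain ⟨-, -, -, h3, h4, -⟩ :=
        ccnt_nr hp hζ D L Q.cl hS a ha ix h1 h2 φ hft B hT f E hf hE
      refine ⟨b, fun _ => ⟨hb, hbs, h3, fun f' hf' => ?_⟩⟩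
      have hff : f' = f := by
        funext i
        ext v
        rw [hf' i v, hf i v]
      rw [hff]
      exact ⟨hk, hsp⟩
    · exact ⟨fun _ => 1, fun h => absurd h hφ⟩
  choose e he using hex
  -- the fibres
  have hnr := one_le_nr E
  have hUY := uy_le B hB1 a E
  have hUY0 : 0 ≤ UY B a E := hUY.1
  have hfib : ∀ (bc : Fin m → Kˣ),
      ((Rs.filter fun φ => e φ = bc).card : ℝ) ≤
        C₁ * (Nat.card G : ℝ) ^ E.card *
          (C₂ * nr E ^ η * UY B a E * (2 * Real.log B) ^ (N - 1)) := by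
    intro bc
    have hrhs : 0 ≤ C₁ * (Nat.card G : ℝ) ^ E.card *
          (C₂ * nr E ^ η * UY B a E * (2 * Real.log B) ^ (N - 1)) := by
      positivity
    rcases (Rs.filter fun φ => e φ = bc).eq_empty_or_nonempty
      with h0 | ⟨φ₀, hφ₀⟩
    · rw [h0, Finset.card_empty, Nat.cast_zero]
      exact hrhs
    rw [Finset.mem_filter] at hφ₀
    obtain ⟨hφ₀, hb₀⟩ := hφ₀
    obtain ⟨-, hbs, hUY1, -⟩ := he φ₀ hφ₀
    rw [hb₀] at hbs
    have hlogU : Real.log (UY B a E) ≤ Real.log B := by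
      have h5 : UY B a E ≤ B := by
        refine hUY.2.trans ?_
        calc B ^ (1 / (a : ℝ)) ≤ B ^ (1 : ℝ) := by
              refine Real.rpow_le_rpow_of_exponent_le hB1 ?_
              rw [div_le_one haR]
              exact ha1
          _ = B := Real.rpow_one B
      exact Real.log_le_log (by linarith) h5
    have hlogU0 : 0 ≤ Real.log (UY B a E) := Real.log_nonneg hUY1
    have h6 : (1 + Real.log (UY B a E)) ^ (N - 1) ≤ (2 * Real.log B) ^ (N - 1) :=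
      pow_le_pow_left₀ (by linarith) (by linarith) _
    refine hcnt B E bc (Rs.filter fun φ => e φ = bc) (by
      intro φ hφ
      rw [Finset.mem_filter] at hφ
      obtain ⟨hφ, hb⟩ := hφ
      obtain ⟨-, -, -, b7⟩ := he φ hφ
      rw [hb] at b7
      exact ⟨(hRs φ hφ).1, (hRs φ hφ).2.2.1, (hRs φ hφ).2.2.2, b7⟩) _ fun ε => ?_
    refine (hub bc E hbs ε (UY B a E) hUY1).trans ?_
    exact mul_le_mul_of_nonneg_left h6 (by positivity)
  have hcardE : ((Rs.card : ℕ) : ℝ) ≤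
      ((U.card : ℝ) * (p : ℝ) ^ E.card) ^ m * (C₁ * (Nat.card G : ℝ) ^ E.card *
          (C₂ * nr E ^ η * UY B a E * (2 * Real.log B) ^ (N - 1))) := by
    have hmap : ∀ φ ∈ Rs, e φ ∈ Bb D U E m := by
      intro φ hφ
      exact (he φ hφ).1
    rw [Finset.card_eq_sum_card_fiberwise hmap]
    push_cast
    calc ∑ b ∈ Bb D U E m, ((Rs.filter fun φ => e φ = b).card : ℝ) ≤
        ∑ b ∈ Bb D U E m, C₁ * (Nat.card G : ℝ) ^ E.card *
          (C₂ * nr E ^ η * UY B a E * (2 * Real.log B) ^ (N - 1)) :=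
          Finset.sum_le_sum fun b _ => hfib b
      _ = ((Bb D U E m).card : ℝ) *
          (C₁ * (Nat.card G : ℝ) ^ E.card *
          (C₂ * nr E ^ η * UY B a E * (2 * Real.log B) ^ (N - 1))) := by
          rw [Finset.sum_const, nsmul_eq_mul]
      _ ≤ _ := by
          refine mul_le_mul_of_nonneg_right ?_ (by positivity)
          have h5 := ubb_card D U E m
          exact_mod_cast h5
  refine hcardE.trans (le_of_eq ?_)
  have e1 : q ^ E.card = (Nat.card G : ℝ) ^ E.card * ((p : ℝ) ^ E.card) ^ m := by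
    rw [hq, mul_pow, ← pow_mul, ← pow_mul, mul_comm m]
  have e2 : UY B a E = X * ∏ v ∈ E, (nm v : ℝ) ^ (-((co a v : ℝ) / (a : ℝ))) := by
    rw [hX]
    rfl
  rw [← hX]
  beta_reduce
  rw [e1, e2, mul_pow, mul_pow]
  ring

end H77.FLD
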