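import Pool.Agent.H77.FLD.Esp
import Pool.Agent.H77.FLD.Gue
import Pool.Agent.H77.FLD.Amn
import Pool.Agent.H38.AS.Fin
import Pool.Agent.H57.MP.Fin

/-!
# H77-FLD-FIN: the asymptotic formula for Sylow subgroups of class at most three, p odd (assembly)

* `wty_of`: all elements of order `p` are typed. `edm3`: domination. `fin_lim3`: the number of surjective homomorphisms.
* `fin_asy`: the final theorem.
-/

set_option autoImplicit false

open scoped NumberField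
open IsDedekindDomain Filter Topology H38.ML
open scoped Classical

noncomputable section

namespace H77.FLD

open H63.MA H38.BB H38.BG H57.PC H57.BRA H63.BU H77.PC3 H57.CC H38.AS H77.S0T H77.AB H77.GN
  H77.UX

/-- all nonzero elements of `W` are typed -/
theorem wty_of {p m l w N : ℕ} {G P H R : Type} [Group G] [Finite G] [Group P] [Group H]
    [Group R] (hp : p.Prime) (Q : GQ p m l w N G P H R) (hP : IsPGroup p P)
    (hall : ∀ h : G, h ≠ 1 → h ^ p = 1 → ∃ i, IsConj h (Q.cl.g i)) : WTy Q.Dg := by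
  intro y hy
  haveI : NeZero p := ⟨hp.ne_zero⟩
  obtain ⟨u, hu, huy⟩ := Q.Dg.wsur y
  have hone : ∀ k, Q.Dg.cw k 1 = 0 := by
    intro k
    have h := Q.Dg.wadd k 1 1 (map_one _) (map_one _)
    rw [mul_one] at h
    exact left_eq_add.1 h |> fun h => h
  have hpow : ∀ n : ℕ, Q.Dg.q (u ^ n) = 1 ∧ ∀ k, Q.Dg.cw k (u ^ n) = (n : ZMod p) * y k := by
    intro n
    induction n with
    | zero =>
      refine ⟨by rw [pow_zero, map_one], fun k => ?_⟩
      rw [pow_zero, hone, Nat.cast_zero, zero_mul]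
    | succ n ih =>
      refine ⟨by rw [map_pow, hu, one_pow], fun k => ?_⟩
      rw [pow_succ, Q.Dg.wadd k _ _ ih.1 hu, ih.2, huy]
      push_cast
      ring
  have hup : u ^ p = 1 := Q.Dg.winj _ (hpow p).1 fun k => by
    rw [(hpow p).2, ZMod.natCast_self, zero_mul]
  have hu1 : u ≠ 1 := by
    intro h
    apply hy
    funext k
    rw [← huy, h, hone]
    rfl
  obtain ⟨g, hg1, hg2⟩ := gq_sur hp Q hP u 1
  obtain ⟨i, hi⟩ := hall g (by
    intro h
    apply hu1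
    rw [← hg1, h, map_one]) (by
    refine Q.inj _ _ ?_ ?_
    · rw [map_pow, hg1, hup, map_one]
    · rw [map_pow, hg2, one_pow, map_one])
  refine ⟨i, ?_⟩
  have h1 : IsConj u (Q.Dg.g i) := by
    have h2 := Q.pr.map_isConj hi
    rwa [hg1, Q.hcl] at h2
  obtain ⟨c, hc⟩ := isConj_iff.1 h1
  have h3 := Q.Dg.wcen u hu c
  rw [← h3, mul_inv_cancel_right] at hc
  rw [← hc]
  exact ⟨hu, huy⟩

section main

variable {n : ℕ} (G : Subgroup (Equiv.Perm (Fin n))) (K : IntermediateField ℚ QBar)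
  [NumberField K]

theorem edm3 (hn : 2 ≤ n) (hG : MulAction.IsPretransitive G (Fin n))
    (hnil : Group.IsNilpotent G) {p : ℕ} [NeZero p] (hp : p.Prime) {ζ : K}
    (hζ : IsPrimitiveRoot ζ p) {m l w N : ℕ} {P H R : Type} [Group P] [Group H] [Group R]
    (Q : GQ p m l w N G P H R)
    (hI : ∀ h : G, (h ≠ 1 ∧ ind (h : Equiv.Perm (Fin n)) = indG G) ↔
      ∃ i, IsConj h (Q.cl.g i))
    (z : K) (hz : IsPrimitiveRoot z (Nat.card G)) (D : RD0 K p ζ)
    (hS : ∀ v : Pl K, ((Nat.card G : ℕ) : 𝓞 K) ∈ v.asIdeal → v ∈ D.S0)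
    (L : LDs D QBar) (Fr : FR L) (hFS : FBd Q.Dg Fr) (i₀ : Fin n) :
    ∃ wt : Finset (Pl K) → ℝ, Summable wt ∧ (∀ E, 0 ≤ wt E) ∧
      ∀ (B : ℝ) (E : Finset (Pl K)), 3 ≤ B → (NE3 G K L Q.cl i₀ E B).Finite →
        ((NE3 G K L Q.cl i₀ E B).ncard : ℝ) ≤
          wt E * (B ^ (1 / (indG G : ℝ)) * Real.log B ^ (N - 1)) := by
  obtain ⟨ha, -, hmin, -, hJ⟩ := pidx_pos hn G hG
  obtain ⟨wt, h1, h2, h3⟩ := gue3 hp hζ D L hnil Q Fr hFS z hz hS (indG G) ha
    (fun H => n - orbs (H.map G.subtype))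
    (fun H hH => by
      have := hJ H hH
      omega)
    (fun g hg h => by
      refine (hI g).1 ⟨hg, le_antisymm ?_ (hmin g hg)⟩
      have h1 : (Subgroup.zpowers g).map G.subtype =
          Subgroup.zpowers (g : Equiv.Perm (Fin n)) := by
        rw [MonoidHom.map_zpowers]
        rfl
      rw [h1] at h
      exact h)
  refine ⟨wt, h1, h2, fun B E hB hfin => ?_⟩
  have h4 := h3 B E hB hfin.toFinset (by
    intro φ hφ
    rw [Set.Finite.mem_toFinset] at hφ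
    obtain ⟨h5, h6, h7, h8⟩ := hφ
    exact ⟨h5, h6, fun T hT => (dsm_lo hn G hG K D L i₀ φ h6 h5 T hT).trans h7, h8⟩)
  rw [Set.ncard_eq_toFinset_card _ hfin]
  exact h4

theorem fin_lim3 (hn : 2 ≤ n) (hG : MulAction.IsPretransitive G (Fin n))
    (hnil : Group.IsNilpotent G) {p : ℕ} [NeZero p] (hp : p.Prime) (h2 : p ≠ 2) {ζ : K}
    (hζ : IsPrimitiveRoot ζ p) (hz2 : Z2 p K) {m l w N : ℕ} {P H R : Type} [Group P]
    [Group H] [Group R] (Q : GQ p m l w N G P H R) (hP : IsPGroup p P) (hN : 1 ≤ N)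
    (hW : WTy Q.Dg)
    (hI : ∀ h : G, (h ≠ 1 ∧ ind (h : Equiv.Perm (Fin n)) = indG G) ↔
      ∃ i, IsConj h (Q.cl.g i))
    (z : K) (hz : IsPrimitiveRoot z (Nat.card G)) (i₀ : Fin n) :
    (∀ B, (CfinS G K i₀ B).Finite) ∧ ∃ c : ℝ, Tendsto (fun B : ℝ =>
      ((CfinS G K i₀ B).ncard : ℝ) / (B ^ (1 / (indG G : ℝ)) * Real.log B ^ (N - 1)))
        atTop (𝓝 c) := by
  haveI : Finite P := Finite.of_surjective _ Q.prs
  have hp2 : MOne p K := mone_odd hp h2 K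
  obtain ⟨ha, -, hmin, -, hJ⟩ := pidx_pos hn G hG
  have hfac : {v : Pl K | ((n.factorial : ℕ) : 𝓞 K) ∈ v.asIdeal}.Finite :=
    finite_above (K := K) (Nat.factorial_ne_zero n)
  obtain ⟨D, hD0⟩ := H38.BB.exists_RD_of K hp hp2 hζ hfac.toFinset
  have hD : ∀ v : Pl K, ((n.factorial : ℕ) : 𝓞 K) ∈ v.asIdeal → v ∈ D.S0 := fun v hv =>
    hD0 v (by
      rw [Set.Finite.mem_toFinset]
      exact hv)
  have hS : ∀ v : Pl K, ((Nat.card G : ℕ) : 𝓞 K) ∈ v.asIdeal → v ∈ D.S0 := fun v hv => by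
    apply hD v
    obtain ⟨k, hk⟩ := esp_dvd G
    rw [hk]
    push_cast
    exact Ideal.mul_mem_right _ _ hv
  obtain ⟨Q'⟩ := exists_DP K QBar
  obtain ⟨L, hLQ⟩ := lds_of hp hζ D.toRD0 Q'
  obtain ⟨Fr⟩ := H77.PC3.exists_FR hp hζ L
  have hFS : FBd Q.Dg Fr :=
    H57.MP.fbdAll p hp K QBar ζ hζ hp2 hz2 D L Fr m l w N P R Q.Dg hN
  -- the sets are finite
  have hfin : ∀ B, (CfinS G K i₀ B).Finite := by
    obtain ⟨C, B₀, hC, hup⟩ := cgu hp hζ D.toRD0 L hnil Q Fr hFS z hz hS (indG G) ha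
      (fun H => n - orbs (H.map G.subtype))
      (fun H hH => by
        have := hJ H hH
        omega)
      (fun g hg h => by
        refine (hI g).1 ⟨hg, le_antisymm ?_ (hmin g hg)⟩
        have h1 : (Subgroup.zpowers g).map G.subtype =
            Subgroup.zpowers (g : Equiv.Perm (Fin n)) := by
          rw [MonoidHom.map_zpowers]
          rfl
        rw [h1] at h
        exact h)
    have h1 : ∀ B, B₀ ≤ B → (CfinS G K i₀ B).Finite := by
      intro B hB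
      by_contra hinf
      obtain ⟨F, hF1, hF2⟩ := Set.Infinite.exists_subset_card_eq hinf
        (⌊C * B ^ (1 / (indG G : ℝ)) * Real.log B ^ (N - 1)⌋₊ + 1)
      have h2 := hup B hB F (by
        intro φ hφ
        obtain ⟨h3, h4, h5⟩ := hF1 hφ
        exact ⟨h3, h4, fun T hT => (dsm_lo hn G hG K D.toRD0 L i₀ φ h4 h3 T hT).trans h5⟩)
      rw [hF2] at h2
      push_cast at h2
      have h3 := Nat.lt_floor_add_one (C * B ^ (1 / (indG G : ℝ)) * Real.log B ^ (N - 1))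
      linarith
    intro B
    refine (h1 (max B B₀) (le_max_right _ _)).subset fun φ hφ =>
      ⟨hφ.1, hφ.2.1, hφ.2.2.trans (le_max_left _ _)⟩
  refine ⟨hfin, ?_⟩
  obtain ⟨wt, hw1, hw2, hw3⟩ := edm3 G K hn hG hnil hp hζ Q hI z hz D.toRD0 hS L Fr hFS i₀
  have hE := fun E => esp3 hn G hG hnil hp h2 K hζ hz2 Q hP hN hW
    (fun h i hi => ((hI h).2 ⟨i, hi⟩).2) ha z hz D hD L Q' hLQ i₀ E
  choose hEf c hEc using hE
  -- the sum over `E`
  have hsum : ∀ B : ℝ, ((CfinS G K i₀ B).ncard : ℝ) =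
      ∑' E : Finset (Pl K), ((NE3 G K L Q.cl i₀ E B).ncard : ℝ) := by
    intro B
    have hex : ∀ φ : Gal(QBar/K) →* G, ∃ E : Finset (Pl K), FT φ →
        ∀ v, v ∈ E ↔ NeC Q.cl L φ v := by
      intro φ
      by_cases h : FT φ
      · have h5 : {v : Pl K | NeC Q.cl L φ v}.Finite :=
          (H63.BU.uinr_fin L φ h).subset fun v hv => hv.1
        refine ⟨h5.toFinset, fun _ v => ?_⟩
        rw [Set.Finite.mem_toFinset]
        rfl
      · exact ⟨∅, fun h' => absurd h' h⟩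
    choose Ef hEf2 using hex
    have hNE : ∀ E, NE3 G K L Q.cl i₀ E B = {φ ∈ CfinS G K i₀ B | Ef φ = E} := by
      intro E
      ext φ
      constructor
      · rintro ⟨h1, h2, h3, h4⟩
        refine ⟨⟨h1, h2, h3⟩, ?_⟩
        ext v
        rw [hEf2 φ h1 v, h4 v]
      · rintro ⟨⟨h1, h2, h3⟩, h4⟩
        refine ⟨h1, h2, h3, fun v => ?_⟩
        rw [← h4]
        exact hEf2 φ h1 v
    rw [tsum_eq_sum (s := (hfin B).toFinset.image Ef)]
    · rw [Set.ncard_eq_toFinset_card _ (hfin B), Finset.card_eq_sum_card_image Ef]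
      push_cast
      refine Finset.sum_congr rfl fun E _ => ?_
      congr 1
      rw [hNE E, ← Set.ncard_coe_finset]
      congr 1
      ext φ
      simp
    · intro E hE'
      rw [hNE E]
      have : {φ ∈ CfinS G K i₀ B | Ef φ = E} = ∅ := by
        rw [Set.eq_empty_iff_forall_notMem]
        rintro φ ⟨h1, h2⟩
        apply hE'
        rw [Finset.mem_image]
        exact ⟨φ, (hfin B).mem_toFinset.2 h1, h2⟩
      rw [this, Set.ncard_empty, Nat.cast_zero]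
  refine ⟨∑' E, c E, ?_⟩
  have hdom := tendsto_tsum_of_dominated_convergence (𝓕 := (atTop : Filter ℝ))
    (f := fun B E => ((NE3 G K L Q.cl i₀ E B).ncard : ℝ) /
      (B ^ (1 / (indG G : ℝ)) * Real.log B ^ (N - 1))) (g := c) (bound := wt) hw1
    (fun E => hEc E) (by
      filter_upwards [eventually_ge_atTop (3 : ℝ)] with B hB E
      have hlog : 0 < Real.log B := Real.log_pos (by linarith)
      have hP : 0 < B ^ (1 / (indG G : ℝ)) * Real.log B ^ (N - 1) :=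
        mul_pos (Real.rpow_pos_of_pos (by linarith) _) (pow_pos hlog _)
      rw [Real.norm_of_nonneg (div_nonneg (Nat.cast_nonneg _) hP.le), div_le_iff₀ hP]
      exact hw3 B E hB (hEf E B))
  refine hdom.congr fun B => ?_
  rw [hsum B, tsum_div_const]

end main

/-- the asymptotic formula for Sylow subgroups of class at most three, `p` odd -/
theorem fin_asy (n : ℕ) (hn : 2 ≤ n) (G : Subgroup (Equiv.Perm (Fin n)))
    (hG : MulAction.IsPretransitive G (Fin n)) (hnil : Group.IsNilpotent G) (p : ℕ)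
    (hp : p.Prime) (h2 : p ≠ 2) (S : Sylow p G)
    (hS : Subgroup.closure {h : G | h ≠ 1 ∧
      Spec.ind (h : Equiv.Perm (Fin n)) = Spec.indG G} = (S : Subgroup G))
    (h4 : ⁅⁅⁅(S : Subgroup G), (S : Subgroup G)⁆, (S : Subgroup G)⁆, (S : Subgroup G)⁆ = ⊥) :
    ∃ K₀ : IntermediateField ℚ (AlgebraicClosure ℚ), NumberField K₀ ∧
      ∀ K : IntermediateField ℚ (AlgebraicClosure ℚ), K₀ ≤ K → ∀ _ : NumberField K,
        ∃ C : ℝ, 0 < C ∧ ∃ k : ℝ → ℕ,
          (∀ B : ℝ, Spec.nK K (AlgebraicClosure ℚ) G B = (k B : ℕ∞)) ∧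
          Tendsto (fun B : ℝ => (k B : ℝ) / (B ^ (1 / (Spec.indG G : ℝ)) *
            Real.log B ^ (Spec.betaAll K (AlgebraicClosure ℚ) G - 1))) atTop (𝓝 C) := by
  haveI : NeZero p := ⟨hp.ne_zero⟩
  haveI : Fact p.Prime := ⟨hp⟩
  have hI : ∀ h : G, h ≠ 1 → ind (h : Equiv.Perm (Fin n)) = indG G → h ^ p = 1 := by
    intro h h0 hh
    have hmem : h ∈ (S : Subgroup G) := by
      rw [← hS]
      exact Subgroup.subset_closure ⟨h0, hh⟩
    obtain ⟨k, hk⟩ := S.isPGroup' ⟨h, hmem⟩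
    refine H57.MP.ord_min G hp h hh k ?_
    have := congrArg Subtype.val hk
    simpa using this
  obtain ⟨K₁, hK₁, hlow⟩ := H57.MP.fin3 n hn G hG hnil p hp S hS h4
  obtain ⟨ha, ⟨g₀, hg₀, hg₀'⟩, hmin, hcj, hJ⟩ := pidx_pos hn G hG
  have hmn := all_min hn G hG hnil hp hI S hS
  obtain ⟨N, g, hgΛ, uni, hI'⟩ := ncl G {h : G | h ≠ 1 ∧ ind (h : Equiv.Perm (Fin n)) = indG G}
    (fun h hh => hh.1) (by
      rintro h ⟨h1, h2⟩ k hk
      refine ⟨?_, ?_⟩
      · intro hk1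
        rw [hk1] at hk
        exact h1 (isConj_one_left.1 hk)
      · obtain ⟨x, rfl⟩ := isConj_iff.1 hk
        exact hcj h x h1 h2)
  have hN : 1 ≤ N := by
    obtain ⟨i, -⟩ := (hI' g₀).1 ⟨hg₀, hg₀'⟩
    have := i.2
    omega
  have hcardpos : 0 < Nat.card G := Nat.card_pos
  have hpd : p ∣ Nat.card G := by
    have h2 := hI g₀ hg₀ hg₀'
    have h3 : orderOf g₀ = p := orderOf_eq_prime h2 hg₀ (hp := ⟨hp⟩)
    rw [← h3]
    exact orderOf_dvd_natCard g₀
  have hSn := nil_normal hnil hp S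
  have hset : {h : G | h ≠ 1 ∧ ind (h : Equiv.Perm (Fin n)) = indG G} =
      {x | ∃ i, IsConj x (g i)} := by
    ext x
    exact hI' x
  obtain ⟨m, l, w, Q, hQ⟩ := exists_gq hp hnil hpd S g
    (fun i => hI _ (hgΛ i).1 (hgΛ i).2) (fun i => (hgΛ i).1) uni (by rw [← hset]; exact hS) h4
  have hIQ : ∀ h : G, (h ≠ 1 ∧ ind (h : Equiv.Perm (Fin n)) = indG G) ↔
      ∃ i, IsConj h (Q.cl.g i) := by
    intro h
    rw [hQ]
    exact hI' h
  have hP : IsPGroup p S := S.isPGroup'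
  have hW : WTy Q.Dg := wty_of hp Q hP fun h h1 h2 => (hIQ h).1 ⟨h1, hmn h h1 h2⟩
  obtain ⟨K₂, hK₂, hK⟩ := akn2 G p
  obtain ⟨c₀, hc₀, hnk⟩ := nk2 G hG
  have i₀ : Fin n := ⟨0, by omega⟩
  haveI := hK₁.to_finiteDimensional
  haveI := hK₂.to_finiteDimensional
  refine ⟨K₁ ⊔ K₂, NumberField.of_module_finite ℚ
    (K₁ ⊔ K₂ : IntermediateField ℚ (AlgebraicClosure ℚ)), fun K hKK hKf => ?_⟩
  obtain ⟨-, ⟨z, hz⟩, -, hz2⟩ := hK K (le_sup_right.trans hKK) hKf
  obtain ⟨hlo, -⟩ := hlow K (le_sup_left.trans hKK) hKf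
  obtain ⟨c₁, hc₁, B₀, hlo⟩ := hlo h2
  obtain ⟨r, hr⟩ := hpd
  have hζ : IsPrimitiveRoot (z ^ r) p := hz.pow hcardpos (by rw [hr]; ring)
  obtain ⟨hfin, c, hcl⟩ := fin_lim3 G K hn hG hnil hp h2 hζ hz2 Q hP hN hW hIQ z hz i₀
  have hβ := lbet G K z hz g uni hI'
  have hk : ∀ B : ℝ, ∃ k : ℕ, Spec.nK K QBar G B = (k : ℕ∞) ∧
      k * c₀ = (CfinS G K i₀ B).ncard := fun B => hnk K hKf i₀ B (hfin B)
  choose k hk1 hk2 using hk
  have hc₀R : (0 : ℝ) < (c₀ : ℝ) := by exact_mod_cast hc₀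
  have hlim : Tendsto (fun B : ℝ => (k B : ℝ) /
        (B ^ (1 / (Spec.indG G : ℝ)) * Real.log B ^ (Spec.betaAll K QBar G - 1)))
        atTop (𝓝 (c / (c₀ : ℝ))) := by
    refine (hcl.div_const (c₀ : ℝ)).congr fun B => ?_
    rw [← hk2 B, hβ]
    push_cast
    have : H38.ML.indG G = Spec.indG G := rfl
    rw [this]
    field_simp
  refine ⟨c / (c₀ : ℝ), ?_, k, hk1, hlim⟩
  refine lt_of_lt_of_le hc₁ (ge_of_tendsto hlim ?_)
  filter_upwards [eventually_ge_atTop B₀, eventually_gt_atTop 1] with B hB hB1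
  have h1 := hlo B hB
  rw [show Spec.nK K (AlgebraicClosure ℚ) G B = (k B : ℕ∞) from hk1 B] at h1
  have h2 : (⌈c₁ * B ^ (1 / (Spec.indG G : ℝ)) *
      Real.log B ^ (Spec.betaAll K QBar G - 1)⌉₊ : ℕ) ≤ k B := by exact_mod_cast h1
  have h3 : c₁ * B ^ (1 / (Spec.indG G : ℝ)) * Real.log B ^ (Spec.betaAll K QBar G - 1) ≤
      (k B : ℝ) := (Nat.le_ceil _).trans (by exact_mod_cast h2)
  have hP : 0 < B ^ (1 / (Spec.indG G : ℝ)) * Real.log B ^ (Spec.betaAll K QBar G - 1) :=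
    mul_pos (Real.rpow_pos_of_pos (by linarith) _) (pow_pos (Real.log_pos hB1) _)
  rw [le_div_iff₀ hP, ← mul_assoc]
  exact h3

end H77.FLD
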