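import Pool.Agent.H77.FLD.Grp
import Pool.Agent.H57.CC.Cm

/-!
# H77-FLD-GSY: the surjective homomorphisms to G with given local type at S0 (MP_b39724_nt)

* `HS`: the surjective homomorphisms to `H` unramified outside `S0` with given local type at `S0`.
* `gsy`: `#SYG = #SY3 * #HS`. `gsl`: the asymptotic formula for `SYG` (from `cm`).
* `gty`: finitely many local types at `S0` of the homomorphisms to `G` typed outside `S0`.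
-/

set_option autoImplicit false

open scoped NumberField
open IsDedekindDomain H38.ML Filter Topology
open scoped Classical

noncomputable section

namespace H77.FLD

open H63.MA H38.BB H38.BG H57.PC H57.BRA H63.BU H77.PC3 H57.CC H38.AS H77.S0T

variable {K : Type} [Field K] [NumberField K] {Ω : Type} [Field Ω] [Algebra K Ω]
  [IsAlgClosure K Ω] {p m l w N : ℕ} {ζ : K} {G P H R : Type} [Group G] [Group P] [Group H]
  [Group R]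

/-- the surjective homomorphisms to `H` unramified outside `S0` with given local type at `S0` -/
def HS {D : RD0 K p ζ} (L : LDs D Ω) (Q : DP K Ω) (β₁ : Gal(Ω/K) →* H) :
    Set (Gal(Ω/K) →* H) :=
  {β | H38.ML.FT β ∧ Function.Surjective β ∧ Teq D.S0 Q β β₁ ∧
    ∀ v, v ∉ D.S0 → ∀ τ ∈ inr L v, β τ = 1}

theorem gsy_mem [NeZero p] [Finite G] (hp : p.Prime) (Q : GQ p m l w N G P H R)
    (hP : IsPGroup p P) {D : RD0 K p ζ} (L : LDs D Ω) (Q' : DP K Ω) (φ₁ φ : Gal(Ω/K) →* G)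
    (hφ : H38.ML.FT φ) (Y : ℝ) :
    φ ∈ SYG L Q' Q.cl φ₁ Y ↔ Q.pr.comp φ ∈ SY3 L Q' Q.Dg (Q.pr.comp φ₁) Y ∧
      Q.ph.comp φ ∈ HS L Q' (Q.ph.comp φ₁) := by
  constructor
  · rintro ⟨-, h2, h3, h4, h5⟩
    obtain ⟨h6, h7⟩ := (gq_teq Q D.S0 Q' φ φ₁).1 h3
    have hun : ∀ v, v ∉ D.S0 → ∀ τ ∈ inr L v, Q.ph (φ τ) = 1 := by
      intro v hv
      rcases h4 v hv with h | ⟨i, hi⟩
      · exact ((gq_un Q L φ v).1 h).2
      · exact ((gq_ty hp Q hP L φ i v).1 hi).2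
    refine ⟨⟨ft_comp _ _ hφ, Q.prs.comp h2, h6, fun v hv => ?_, fun T hT => ?_⟩,
      ft_comp _ _ hφ, Q.phs.comp h2, h7, hun⟩
    · rcases h4 v hv with h | ⟨i, hi⟩
      · exact Or.inl ((gq_un Q L φ v).1 h).1
      · exact Or.inr ⟨i, ((gq_ty hp Q hP L φ i v).1 hi).1⟩
    · refine h5 T fun v hv => ⟨(hT v hv).1, fun h => (hT v hv).2 ?_⟩
      exact ((gq_un Q L φ v).1 h).1
  · rintro ⟨⟨-, g2, g3, g4, g5⟩, -, g6, g7, g8⟩
    refine ⟨hφ, gq_srj hp Q hP φ g2 g6, (gq_teq Q D.S0 Q' φ φ₁).2 ⟨g3, g7⟩, fun v hv => ?_,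
      fun T hT => ?_⟩
    · rcases g4 v hv with h | ⟨i, hi⟩
      · exact Or.inl ((gq_un Q L φ v).2 ⟨h, g8 v hv⟩)
      · exact Or.inr ⟨i, (gq_ty hp Q hP L φ i v).2 ⟨hi, g8 v hv⟩⟩
    · refine g5 T fun v hv => ⟨(hT v hv).1, fun h => (hT v hv).2 ?_⟩
      exact (gq_un Q L φ v).2 ⟨h, g8 v (hT v hv).1⟩

theorem gsy [NeZero p] [Finite G] (hp : p.Prime) (Q : GQ p m l w N G P H R)
    (hP : IsPGroup p P) {D : RD0 K p ζ} (L : LDs D Ω) (Q' : DP K Ω) (φ₁ : Gal(Ω/K) →* G)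
    (Y : ℝ) : (SYG L Q' Q.cl φ₁ Y).ncard =
      (SY3 L Q' Q.Dg (Q.pr.comp φ₁) Y).ncard * (HS L Q' (Q.ph.comp φ₁)).ncard ∧
    ((SY3 L Q' Q.Dg (Q.pr.comp φ₁) Y).Finite → (HS L Q' (Q.ph.comp φ₁)).Finite →
      (SYG L Q' Q.cl φ₁ Y).Finite) := by
  have hinj : Set.InjOn (fun φ : Gal(Ω/K) →* G => (Q.pr.comp φ, Q.ph.comp φ))
      (SYG L Q' Q.cl φ₁ Y) := by
    intro φ _ φ' _ h
    have h1 : Q.pr.comp φ = Q.pr.comp φ' := congrArg Prod.fst h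
    have h2 : Q.ph.comp φ = Q.ph.comp φ' := congrArg Prod.snd h
    ext σ
    exact Q.inj _ _ (DFunLike.congr_fun h1 σ) (DFunLike.congr_fun h2 σ)
  have himg : (fun φ : Gal(Ω/K) →* G => (Q.pr.comp φ, Q.ph.comp φ)) '' (SYG L Q' Q.cl φ₁ Y) =
      (SY3 L Q' Q.Dg (Q.pr.comp φ₁) Y) ×ˢ (HS L Q' (Q.ph.comp φ₁)) := by
    ext ⟨α, β⟩
    rw [Set.mem_image, Set.mem_prod]
    constructor
    · rintro ⟨φ, hφ, h⟩
      have h1 : Q.pr.comp φ = α := congrArg Prod.fst h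
      have h2 : Q.ph.comp φ = β := congrArg Prod.snd h
      have h3 := (gsy_mem hp Q hP L Q' φ₁ φ hφ.1 Y).1 hφ
      rw [h1, h2] at h3
      exact h3
    · rintro ⟨h1, h2⟩
      obtain ⟨φ, h3, h4, h5⟩ := gq_pair hp Q hP α β h1.1 h2.1
      refine ⟨φ, (gsy_mem hp Q hP L Q' φ₁ φ h3 Y).2 ⟨by rw [h4]; exact h1, by rw [h5]; exact h2⟩,
        Prod.ext h4 h5⟩
  constructor
  · rw [← Set.ncard_prod, ← himg, hinj.ncard_image]
  · intro h1 h2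
    refine Set.Finite.of_finite_image ?_ hinj
    rw [himg]
    exact h1.prod h2

/-- the homomorphisms to `H` unramified outside `S0` -/
theorem hs_fin [Finite G] (hnil : Group.IsNilpotent G) (Q : GQ p m l w N G P H R)
    {D : RD0 K p ζ} (L : LDs D Ω) (z : K) (hz : IsPrimitiveRoot z (Nat.card G))
    (hS : ∀ v : Pl K, ((Nat.card G : ℕ) : 𝓞 K) ∈ v.asIdeal → v ∈ D.S0) :
    {β : Gal(Ω/K) →* H | H38.ML.FT β ∧ ∀ v, v ∉ D.S0 → ∀ τ ∈ inr L v, β τ = 1}.Finite := by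
  haveI : Finite H := Finite.of_surjective _ Q.phs
  have hnil' : Group.IsNilpotent H := Group.nilpotent_of_surjective Q.ph Q.phs
  obtain ⟨C, hC⟩ := ugsr D L (Nat.card G) Nat.card_pos z hz hS H hnil'
    (Subgroup.card_dvd_of_surjective _ Q.phs)
  by_contra hinf
  obtain ⟨F, hF1, hF2⟩ := Set.Infinite.exists_subset_card_eq hinf (C + 1)
  have h1 := hC F (fun φ hφ => (hF1 hφ).1) (fun φ hφ φ' hφ' v hv τ hτ => by
    rw [(hF1 hφ).2 v hv τ hτ, (hF1 hφ').2 v hv τ hτ])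
  omega

/-- finitely many local types -/
theorem gty [NeZero p] [Finite G] (hp : p.Prime) (hp2 : MOne p K) (hζ : IsPrimitiveRoot ζ p)
    (hnil : Group.IsNilpotent G) (Q : GQ p m l w N G P H R) (hP : IsPGroup p P)
    (D : RD0 K p ζ) (L : LDs D Ω) (Q' : DP K Ω) (z : K)
    (hz : IsPrimitiveRoot z (Nat.card G))
    (hS : ∀ v : Pl K, ((Nat.card G : ℕ) : 𝓞 K) ∈ v.asIdeal → v ∈ D.S0) :
    ∃ R₀ : Finset (Gal(Ω/K) →* G), (∀ φ ∈ R₀, H38.ML.FT φ) ∧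
      ∀ φ : Gal(Ω/K) →* G, H38.ML.FT φ → (∀ v, Rm L φ v → ∃ i, TyC Q.cl L φ i v) →
        ∃ φ' ∈ R₀, Teq D.S0 Q' φ φ' := by
  obtain ⟨⟨Rs, hR1, hR2⟩, -⟩ := types_fin3 hp hp2 hζ D L Q' Q.Dg
  obtain ⟨Bs, hBs⟩ : ∃ Bs : Finset (Gal(Ω/K) →* H), Bs = (hs_fin hnil Q L z hz hS).toFinset :=
    ⟨_, rfl⟩
  have hB : ∀ β, β ∈ Bs ↔ H38.ML.FT β ∧ ∀ v, v ∉ D.S0 → ∀ τ ∈ inr L v, β τ = 1 := by
    intro β
    rw [hBs, Set.Finite.mem_toFinset]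
    rfl
  have hex : ∀ z : {α // α ∈ Rs} × {β // β ∈ Bs}, ∃ φ : Gal(Ω/K) →* G, H38.ML.FT φ ∧
      Q.pr.comp φ = z.1.1 ∧ Q.ph.comp φ = z.2.1 := fun z =>
    gq_pair hp Q hP z.1.1 z.2.1 (hR1 _ z.1.2) ((hB _).1 z.2.2).1
  choose F hF1 hF2 hF3 using hex
  refine ⟨Finset.univ.image F, fun φ hφ => ?_, fun φ hφ hty => ?_⟩
  · obtain ⟨z, -, rfl⟩ := Finset.mem_image.1 hφ
    exact hF1 z
  · obtain ⟨α, hα, h1⟩ := hR2 (Q.pr.comp φ) (ft_comp _ _ hφ)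
    have h2 : Q.ph.comp φ ∈ Bs := by
      rw [hB]
      refine ⟨ft_comp _ _ hφ, fun v hv τ hτ => ?_⟩
      by_cases h : ∀ τ ∈ inr L v, φ τ = 1
      · rw [MonoidHom.comp_apply, h τ hτ, map_one]
      · push Not at h
        obtain ⟨i, hi⟩ := hty v ⟨hv, h⟩
        exact ((gq_ty hp Q hP L φ i v).1 hi).2 τ hτ
    refine ⟨F (⟨α, hα⟩, ⟨_, h2⟩), Finset.mem_image.2 ⟨_, Finset.mem_univ _, rfl⟩, ?_⟩
    rw [gq_teq Q, hF2, hF3]
    exact ⟨h1, fun v hv σ hσ => rfl⟩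

/-- `SYG` is finite -/
theorem gsf [NeZero p] [Finite G] (hp : p.Prime) (hζ : IsPrimitiveRoot ζ p)
    (hnil : Group.IsNilpotent G) (Q : GQ p m l w N G P H R) (hP : IsPGroup p P)
    (D : RD0 K p ζ) (L : LDs D Ω) (Q' : DP K Ω) (z : K)
    (hz : IsPrimitiveRoot z (Nat.card G))
    (hS : ∀ v : Pl K, ((Nat.card G : ℕ) : 𝓞 K) ∈ v.asIdeal → v ∈ D.S0)
    (φ₁ : Gal(Ω/K) →* G) (Y : ℝ) : (SYG L Q' Q.cl φ₁ Y).Finite := by
  haveI : Finite P := Finite.of_surjective _ Q.prs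
  haveI : Finite R := Finite.of_surjective _ Q.Dg.qs
  refine (gsy hp Q hP L Q' φ₁ Y).2 ?_ ?_
  · obtain ⟨Ub, -, h⟩ := sy3x hp hζ D L Q' Q.Dg
    exact (h _ Y).1
  · exact (hs_fin hnil Q L z hz hS).subset fun β hβ => ⟨hβ.1, hβ.2.2.2⟩

/-- the asymptotic formula for `SYG` -/
theorem gsl [NeZero p] [Finite G] (hp : p.Prime) (h2 : p ≠ 2) (hζ : IsPrimitiveRoot ζ p)
    (hz2 : Z2 p K) (Q : GQ p m l w N G P H R) (hP : IsPGroup p P)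
    (D : RD K p ζ) (L : LDs D.toRD0 Ω) (Q' : DP K Ω) (hN : 1 ≤ N) (hW : WTy Q.Dg)
    (φ₁ : Gal(Ω/K) →* G) (h₁ : H38.ML.FT φ₁) :
    ∃ L₀ : ℝ, Tendsto (fun Y : ℝ => ((SYG L Q' Q.cl φ₁ Y).ncard : ℝ) /
      (Y * Real.log Y ^ (N - 1))) atTop (𝓝 L₀) := by
  haveI : Finite P := Finite.of_surjective _ Q.prs
  haveI : Finite R := Finite.of_surjective _ Q.Dg.qs
  obtain ⟨Fr⟩ := H77.PC3.exists_FR hp hζ L
  obtain ⟨l, hl⟩ := cm hp h2 hζ hz2 D L Q' Fr Q.Dg hN hW (Q.pr.comp φ₁) (ft_comp _ _ h₁)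
  refine ⟨l * ((HS L Q' (Q.ph.comp φ₁)).ncard : ℝ),
    (hl.mul_const ((HS L Q' (Q.ph.comp φ₁)).ncard : ℝ)).congr fun Y => ?_⟩
  rw [(gsy hp Q hP L Q' φ₁ Y).1]
  push_cast
  ring

end H77.FLD
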