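import Pool.Agent.H77.FLD.Esc
import Pool.Agent.H77.FLD.Gsy
import Pool.Agent.H38.AS.DFo
import Pool.Agent.H38.AS.ESp

/-!
# H77-FLD-ESP: the number of homomorphisms with given untyped primes (as ESp)
-/

set_option autoImplicit false

open scoped NumberField
open IsDedekindDomain Filter Topology H38.ML
open scoped Classical

noncomputable section

namespace H77.FLD

open H63.MA H38.BB H38.BG H57.PC H57.BRA H63.BU H77.PC3 H57.CC H38.AS H77.S0T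

theorem esp3 {n : ℕ} (hn : 2 ≤ n) (G : Subgroup (Equiv.Perm (Fin n)))
    (hG : MulAction.IsPretransitive G (Fin n)) (hnil : Group.IsNilpotent G)
    {p : ℕ} [NeZero p] (hp : p.Prime) (h2 : p ≠ 2) (K : IntermediateField ℚ QBar)
    [NumberField K] {ζ : K} (hζ : IsPrimitiveRoot ζ p) (hz2 : Z2 p K) {m l w N : ℕ}
    {P H R : Type} [Group P] [Group H] [Group R]
    (Q : GQ p m l w N G P H R) (hP : IsPGroup p P) (hN : 1 ≤ N) (hW : WTy Q.Dg)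
    (hI : ∀ (h : G) (i : Fin N), IsConj h (Q.cl.g i) →
      ind (h : Equiv.Perm (Fin n)) = indG G)
    (ha : 0 < indG G) (z : K) (hz : IsPrimitiveRoot z (Nat.card G)) (D : RD K p ζ)
    (hD : ∀ v : Pl K, ((n.factorial : ℕ) : 𝓞 K) ∈ v.asIdeal → v ∈ D.S0)
    (L : LDs D.toRD0 QBar) (Q' : DP K QBar) (hLQ : LQ L Q') (i₀ : Fin n)
    (E : Finset (Pl K)) :
    (∀ B, (NE3 G K L Q.cl i₀ E B).Finite) ∧ ∃ c : ℝ, Tendsto (fun B : ℝ =>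
      ((NE3 G K L Q.cl i₀ E B).ncard : ℝ) / (B ^ (1 / (indG G : ℝ)) * Real.log B ^ (N - 1)))
        atTop (𝓝 c) := by
  have hp2 : MOne p K := mone_odd hp h2 K
  have haR : (0 : ℝ) < (indG G : ℝ) := by exact_mod_cast ha
  by_cases hE : ∃ v ∈ E, v ∈ D.S0
  · -- no homomorphisms
    obtain ⟨v, hvE, hvS⟩ := hE
    have hemp : ∀ B, NE3 G K L Q.cl i₀ E B = ∅ := by
      intro B
      rw [Set.eq_empty_iff_forall_notMem]
      rintro φ ⟨-, -, -, h⟩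
      exact ((h v).1 hvE).1.1 hvS
    refine ⟨fun B => by rw [hemp]; exact Set.finite_empty, 0, ?_⟩
    refine tendsto_const_nhds.congr fun B => ?_
    rw [hemp, Set.ncard_empty, Nat.cast_zero, zero_div]
  push Not at hE
  obtain ⟨D', hD'⟩ := exists_RD_of K hp hp2 hζ (D.S0 ∪ E)
  have hDD : ∀ v ∈ D.S0, v ∈ D'.S0 := fun v hv => hD' v (Finset.mem_union_left _ hv)
  have hED : ∀ v ∈ E, v ∈ D'.S0 := fun v hv => hD' v (Finset.mem_union_right _ hv)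
  have hD2 : ∀ v : Pl K, ((n.factorial : ℕ) : 𝓞 K) ∈ v.asIdeal → v ∈ D'.S0 := fun v hv =>
    hDD v (hD v hv)
  have hS2 : ∀ v : Pl K, ((Nat.card G : ℕ) : 𝓞 K) ∈ v.asIdeal → v ∈ D'.S0 := fun v hv => by
    apply hD2 v
    obtain ⟨k, hk⟩ := esp_dvd G
    rw [hk]
    push_cast
    exact Ideal.mul_mem_right _ _ hv
  obtain ⟨L', hL'⟩ := lds_of hp hζ D'.toRD0 Q'
  obtain ⟨d, hd1, hd2⟩ := dfo hn G hG K D'.toRD0 hD2 L' Q' i₀
  obtain ⟨R₀, hR1, hR2⟩ := gty hp hp2 hζ hnil Q hP D'.toRD0 L' Q' z hz hS2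
  obtain ⟨hr, hs, ht⟩ := cfin_teq G K (S := D'.S0) Q'
  obtain ⟨R, hRR, hR3, hR4⟩ := cfin_reps (fun φ φ' : Gal(QBar/K) →* G => Teq D'.S0 Q' φ φ')
    hr hs ht R₀
  -- typed homomorphisms
  have hdok : ∀ φ : Gal(QBar/K) →* G, FT φ → (∀ v, Rm L' φ v → ∃ i, TyC Q.cl L' φ i v) →
      ∀ v, Rm L' φ v → n - orbs (((inr L' v).map φ).map G.subtype) = H38.ML.indG G := by
    intro φ hft hty v hv
    obtain ⟨i, hi⟩ := hty v hv
    exact esc_exp G hp hζ Q.cl hI L' φ hft v i hi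
  -- the constants
  have hex : ∀ φ₁ : Gal(QBar/K) →* G, ∃ e : ℕ, 0 < e ∧ ∀ φ, FT φ → Function.Surjective φ →
      (∀ v, Rm L' φ v → ∃ i, TyC Q.cl L' φ i v) → Teq D'.S0 Q' φ φ₁ → d φ = e := by
    intro φ₁
    by_cases h : ∃ φ₂ : Gal(QBar/K) →* G, FT φ₂ ∧ Function.Surjective φ₂ ∧
        (∀ v, Rm L' φ₂ v → ∃ i, TyC Q.cl L' φ₂ i v) ∧ Teq D'.S0 Q' φ₂ φ₁
    · obtain ⟨φ₂, h1, h2, h0, h3⟩ := h
      exact ⟨d φ₂, (hd1 φ₂ h2 h1 (hdok φ₂ h1 h0)).1, fun φ h4 h5 _ h6 => hd2 φ φ₂ h5 h4 h2 h1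
        (ht _ _ _ h6 (hs _ _ h3))⟩
    · push Not at h
      exact ⟨1, one_pos, fun φ h4 h5 h0 h6 => absurd h6 (h φ h4 h5 h0)⟩
  choose e he0 he using hex
  -- the condition on the discriminant
  have hdisc : ∀ φ₁ φ : Gal(QBar/K) →* G, FT φ → Function.Surjective φ →
      (∀ v, Rm L' φ v → ∃ i, TyC Q.cl L' φ i v) → Teq D'.S0 Q' φ φ₁ →
      ∀ B : ℝ, 0 ≤ B → ((H38.ML.relDisc K (fieldOf i₀ φ) : ℝ) ≤ B ↔
        φ ∈ SYG L' Q' Q.cl φ₁ ((B / (e φ₁ : ℝ)) ^ (1 / (H38.ML.indG G : ℝ)))) := by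
    intro φ₁ φ h1 h2 hty h3 B hB
    have hfin : {v : Pl K | Rm L' φ v}.Finite := H63.BU.uinr_fin L' φ h1
    have hT : ∀ v, v ∈ hfin.toFinset ↔ Rm L' φ v := by
      intro v
      rw [Set.Finite.mem_toFinset]
      rfl
    have h4 := (hd1 φ h2 h1 (hdok φ h1 hty)).2 hfin.toFinset hT
    have hepos : (0 : ℝ) < (e φ₁ : ℝ) := by exact_mod_cast he0 φ₁
    have h5 : (H38.ML.relDisc K (fieldOf i₀ φ) : ℝ) =
        (e φ₁ : ℝ) * (∏ v ∈ hfin.toFinset, (nm v : ℝ)) ^ H38.ML.indG G := by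
      rw [h4, he φ₁ φ h1 h2 hty h3]
      push_cast
      rfl
    have hP0 : (0 : ℝ) ≤ ∏ v ∈ hfin.toFinset, (nm v : ℝ) :=
      Finset.prod_nonneg fun v _ => Nat.cast_nonneg _
    have h6 : (H38.ML.relDisc K (fieldOf i₀ φ) : ℝ) ≤ B ↔ ∏ v ∈ hfin.toFinset, (nm v : ℝ) ≤
        (B / (e φ₁ : ℝ)) ^ (1 / (H38.ML.indG G : ℝ)) := by
      rw [h5, mul_comm, ← le_div_iff₀ hepos, one_div, ← Real.rpow_natCast]
      rw [Real.le_rpow_inv_iff_of_pos hP0 (div_nonneg hB hepos.le) haR]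
    rw [h6]
    constructor
    · intro h7
      refine ⟨h1, h2, h3, fun v hv => ?_, fun T hT' => ?_⟩
      · by_cases h : ∀ τ ∈ inr L' v, φ τ = 1
        · exact Or.inl h
        · push Not at h
          exact Or.inr (hty v ⟨hv, h⟩)
      · have hsub : T ⊆ hfin.toFinset := by
          intro v hv
          rw [hT]
          obtain ⟨h8, h9⟩ := hT' v hv
          push Not at h9
          exact ⟨h8, h9⟩
        refine le_trans ?_ h7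
        rw [← Finset.prod_sdiff hsub]
        exact le_mul_of_one_le_left (Finset.prod_nonneg fun v _ => Nat.cast_nonneg _)
          (one_le_nr _)
    · rintro ⟨-, -, -, -, h7⟩
      refine h7 hfin.toFinset fun v hv => ?_
      rw [hT] at hv
      obtain ⟨h8, τ, hτ, h9⟩ := hv
      exact ⟨h8, fun h => h9 (h τ hτ)⟩
  -- the classes with the right behaviour at `S0'`
  obtain ⟨RE, hRE⟩ : ∃ RE : Finset (Gal(QBar/K) →* G),
    RE = R.filter fun φ₁ => ∀ v ∈ D'.S0, (v ∈ E ↔ NeC Q.cl L φ₁ v) := ⟨_, rfl⟩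
  have htyd : ∀ φ₁ φ : Gal(QBar/K) →* G, ∀ Y, φ ∈ SYG L' Q' Q.cl φ₁ Y →
      ∀ v, Rm L' φ v → ∃ i, TyC Q.cl L' φ i v := by
    rintro φ₁ φ Y ⟨-, -, -, h4, -⟩ v ⟨hv, τ, hτ, h9⟩
    rcases h4 v hv with h | h
    · exact absurd (h τ hτ) h9
    · exact h
  have hcover : ∀ B : ℝ, 0 ≤ B → NE3 G K L Q.cl i₀ E B = ⋃ φ₁ ∈ RE,
      SYG L' Q' Q.cl φ₁ ((B / (e φ₁ : ℝ)) ^ (1 / (H38.ML.indG G : ℝ))) := by
    intro B hB
    ext φ
    simp only [Set.mem_iUnion, exists_prop]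
    constructor
    · rintro ⟨h1, h2, h3, h4⟩
      obtain ⟨h5, h6⟩ := (esc_iff hp hζ hDD L L' Q' hLQ hL' Q.cl φ h1 E hED).1 h4
      obtain ⟨φ₂, h7, h8⟩ := hR2 φ h1 h5
      obtain ⟨φ₁, h9, h10⟩ := hR3 φ₂ h7
      have h11 := ht _ _ _ h8 h10
      refine ⟨φ₁, ?_, (hdisc φ₁ φ h1 h2 h5 h11 B hB).1 h3⟩
      rw [hRE, Finset.mem_filter]
      refine ⟨h9, fun v hv => ?_⟩
      rw [h6 v hv, esc_teq L Q' hLQ Q.cl D'.S0 φ φ₁ h11 v hv]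
    · rintro ⟨φ₁, h6, h7⟩
      rw [hRE] at h6
      obtain ⟨h8, h9⟩ := Finset.mem_filter.1 h6
      have hty := htyd φ₁ φ _ h7
      refine ⟨h7.1, h7.2.1, (hdisc φ₁ φ h7.1 h7.2.1 hty h7.2.2.1 B hB).2 h7, ?_⟩
      rw [esc_iff hp hζ hDD L L' Q' hLQ hL' Q.cl φ h7.1 E hED]
      refine ⟨hty, fun v hv => ?_⟩
      rw [h9 v hv, esc_teq L Q' hLQ Q.cl D'.S0 φ φ₁ h7.2.2.1 v hv]
  have hfinX : ∀ φ₁ X, (SYG L' Q' Q.cl φ₁ X : Set (Gal(QBar/K) →* G)).Finite := fun φ₁ X =>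
    gsf hp hζ hnil Q hP D'.toRD0 L' Q' z hz hS2 φ₁ X
  have hREm : ∀ φ₁ ∈ RE, φ₁ ∈ R := fun φ₁ h => by
    rw [hRE] at h
    exact (Finset.mem_filter.1 h).1
  refine ⟨fun B => ?_, ?_⟩
  · have h1 : NE3 G K L Q.cl i₀ E B ⊆ NE3 G K L Q.cl i₀ E (max B 0) := fun φ hφ =>
      ⟨hφ.1, hφ.2.1, hφ.2.2.1.trans (le_max_left _ _), hφ.2.2.2⟩
    refine Set.Finite.subset ?_ h1
    rw [hcover _ (le_max_right _ _)]
    exact Set.Finite.biUnion (Finset.finite_toSet _) fun φ₁ _ => hfinX _ _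
  · have hl : ∀ φ₁ : Gal(QBar/K) →* G, ∃ l : ℝ, φ₁ ∈ R → Tendsto (fun X : ℝ =>
        ((SYG L' Q' Q.cl φ₁ X).ncard : ℝ) / (X * Real.log X ^ (N - 1))) atTop (𝓝 l) := by
      intro φ₁
      by_cases h : φ₁ ∈ R
      · obtain ⟨l, hl⟩ := gsl hp h2 hζ hz2 Q hP D' L' Q' hN hW φ₁ (hR1 φ₁ (hRR h))
        exact ⟨l, fun _ => hl⟩
      · exact ⟨0, fun h' => absurd h' h⟩
    choose l hl using hl
    refine ⟨∑ φ₁ ∈ RE, l φ₁ * ((e φ₁ : ℝ) ^ (-(1 / (H38.ML.indG G : ℝ))) *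
      (1 / (H38.ML.indG G : ℝ)) ^ (N - 1)), ?_⟩
    have hsum := tendsto_finsetSum RE fun φ₁ hφ₁ =>
      cfin_lim (fun X => ((SYG L' Q' Q.cl φ₁ X).ncard : ℝ)) (l φ₁) (N - 1)
        (hl φ₁ (hREm φ₁ hφ₁))
        (H38.ML.indG G : ℝ) haR (e φ₁ : ℝ) (by exact_mod_cast he0 φ₁)
    refine hsum.congr' ?_
    filter_upwards [eventually_ge_atTop 0] with B hB
    rw [← Finset.sum_div]
    congr 1
    rw [hcover B hB]
    have h1 : (⋃ φ₁ ∈ RE, SYG L' Q' Q.cl φ₁ ((B / (e φ₁ : ℝ)) ^ (1 / (H38.ML.indG G : ℝ))) :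
        Set (Gal(QBar/K) →* G)) = ((RE.biUnion fun φ₁ =>
          (hfinX φ₁ ((B / (e φ₁ : ℝ)) ^ (1 / (H38.ML.indG G : ℝ)))).toFinset :
            Finset (Gal(QBar/K) →* G)) : Set (Gal(QBar/K) →* G)) := by
      rw [Finset.coe_biUnion]
      refine Set.iUnion₂_congr fun φ₁ _ => ?_
      rw [Set.Finite.coe_toFinset]
    rw [h1, Set.ncard_coe_finset, Finset.card_biUnion]
    · push_cast
      refine Finset.sum_congr rfl fun φ₁ _ => ?_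
      rw [Set.ncard_eq_toFinset_card _ (hfinX φ₁ _)]
    · intro φ₁ h1 φ₂ h2 hne
      refine Finset.disjoint_left.2 fun φ hφ hφ' => ?_
      rw [Set.Finite.mem_toFinset] at hφ hφ'
      exact hne (hR4 φ₁ (hREm φ₁ h1) φ₂ (hREm φ₂ h2)
        (ht _ _ _ (hs _ _ hφ.2.2.1) hφ'.2.2.1))

end H77.FLD
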